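import Mathlib

set_option autoImplicit false

namespace Pool.Agent.Results.MP_3d4fca_co.Exists

/-- distinct vertices have distinct `r`-balls. -/
def TwinFree {V : Type} (G : SimpleGraph V) (r : ℕ) : Prop :=
  ∀ u v, u ≠ v → {w | G.edist w u ≤ r} ≠ {w | G.edist w v ≤ r}

/-- `r`-twin-free, but deleting any vertex creates `r`-twins. -/
def Terminal {V : Type} (G : SimpleGraph V) (r : ℕ) : Prop :=
  TwinFree G r ∧ ∀ v, ¬ TwinFree (G.induce {v}ᶜ) r

lemma edist_two {V : Type} (G : SimpleGraph V) (w u : V) :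
    G.edist w u ≤ (2 : ℕ) ↔ (w = u ∨ G.Adj w u ∨ ∃ x, G.Adj w x ∧ G.Adj x u) := by
  constructor
  · intro h
    obtain ⟨p, hp⟩ := SimpleGraph.exists_walk_of_edist_ne_top
      (ne_top_of_le_ne_top (ENat.coe_ne_top 2) h)
    rw [← hp, Nat.cast_le] at h
    match p, h with
    | .nil, _ => exact Or.inl rfl
    | .cons a .nil, _ => exact Or.inr (Or.inl a)
    | .cons a (.cons b .nil), _ => exact Or.inr (Or.inr ⟨_, a, b⟩)
    | .cons _ (.cons _ (.cons _ _)), h => simp at h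
  · rintro (rfl | a | ⟨x, a, b⟩)
    · simp
    · exact (SimpleGraph.Walk.edist_le (.cons a .nil)).trans (by simp)
    · exact (SimpleGraph.Walk.edist_le (.cons a (.cons b .nil))).trans (by simp)

lemma tf {V : Type} (G : SimpleGraph V) : TwinFree G 2 ↔ ∀ u v, u ≠ v → ¬ ∀ w,
    ((w = u ∨ G.Adj w u ∨ ∃ x, G.Adj w x ∧ G.Adj x u) ↔
      (w = v ∨ G.Adj w v ∨ ∃ x, G.Adj w x ∧ G.Adj x v)) := by
  simp only [TwinFree, ne_eq, Set.ext_iff, Set.mem_setOf_eq, edist_two]

def E : List (Fin 9 × Fin 9) :=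
  [(0,8),(1,7),(1,8),(2,6),(2,8),(3,5),(3,8),(4,5),(4,6),(4,7),(5,7),(6,7)]

def G : SimpleGraph (Fin 9) where
  Adj u v := (u, v) ∈ E ∨ (v, u) ∈ E
  symm := ⟨fun _ _ h => h.symm⟩
  loopless := ⟨by decide⟩

instance : DecidableRel G.Adj := fun u v => inferInstanceAs (Decidable ((u, v) ∈ E ∨ (v, u) ∈ E))

theorem result : ∃ (n : ℕ) (H : SimpleGraph (Fin n)), H.Connected ∧ Terminal H 2 ∧
    IsEmpty (H ≃g SimpleGraph.pathGraph 5) := by
  refine ⟨9, G, by decide +kernel, ⟨?_, fun v => ?_⟩, ⟨fun e => ?_⟩⟩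
  · rw [tf]; decide +kernel
  · rw [tf]
    simp only [Subtype.forall, Subtype.exists, SimpleGraph.comap_adj, Function.Embedding.subtype_apply,
      Set.mem_compl_iff, Set.mem_singleton_iff, ne_eq, Subtype.mk.injEq, exists_and_left,
      exists_prop]
    revert v
    decide +kernel
  · have := Fintype.card_congr e.toEquiv
    simp at this

end Pool.Agent.Results.MP_3d4fca_co.Exists
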